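import Pool.Agent.Y887.QK.StmD

/-!
# The indefinite forms attached to the points of a modular hyperbola (T2-FORMD)

By helper929, adapted from `Pool.Agent.Y672.T2.Form` (helper672).
-/

set_option autoImplicit false

namespace Pool.Agent.Y929.T2

open Finset Pool.Agent.Y887.QKS

/-- the inequalities -/
lemma sizes {L W B d D n Q : ℤ} (hL : 2 ≤ L) (hW : 1 ≤ W) (hB : 1 ≤ B) (hd : 0 ≤ d) (hn : 0 ≤ n)
    (hQ : 1 ≤ Q) (hBQ : B ≤ Q * L) (hD1 : D ≤ n) (hD2 : -n ≤ D) (hs : 2 * (n + 1) * W ≤ L)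
    (he : L * d = 1 + W * B) :
    (L ≤ L ^ 2 - D * W ^ 2 ∧ L ^ 2 - D * W ^ 2 ≤ 2 * L ^ 2) ∧
    (0 < L * B - D * W * d ∧ L * B - D * W * d ≤ 2 * Q * L ^ 2) ∧
    (0 < B ^ 2 - D * d ^ 2 ∧ B ^ 2 - D * d ^ 2 ≤ 2 * Q ^ 2 * L ^ 2) := by
  have hL0 : 0 < L := by linarith
  have hLL : 0 < L ^ 2 := by positivity
  have hB0 : 0 < B := by linarith
  have hBB : 0 < B ^ 2 := by positivity
  have h16 : 16 * (n * W ^ 2) ≤ L ^ 2 := by
    have h1 : (2 * (n + 1) * W) ^ 2 ≤ L ^ 2 := pow_le_pow_left₀ (by positivity) hs 2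
    have h2 : 0 ≤ (n - 1) ^ 2 * W ^ 2 := mul_nonneg (sq_nonneg (n - 1)) (sq_nonneg W)
    linarith [show (2 * (n + 1) * W) ^ 2 = 16 * (n * W ^ 2) + 4 * ((n - 1) ^ 2 * W ^ 2) by ring]
  have hDW1 : D * W ^ 2 ≤ n * W ^ 2 := mul_le_mul_of_nonneg_right hD1 (sq_nonneg W)
  have hDW2 : -n * W ^ 2 ≤ D * W ^ 2 := mul_le_mul_of_nonneg_right hD2 (sq_nonneg W)
  have hnW : n * W ≤ n * W ^ 2 := by
    have h1 : W ≤ W ^ 2 := by
      have h2 := mul_le_mul_of_nonneg_right hW (show 0 ≤ W by linarith)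
      linarith [show W ^ 2 = W * W by ring]
    exact mul_le_mul_of_nonneg_left h1 hn
  have hW0 : 0 ≤ W := by linarith
  have hD3 : D * W ≤ n * W := mul_le_mul_of_nonneg_right hD1 hW0
  have hD4 : -n * W ≤ D * W := mul_le_mul_of_nonneg_right hD2 hW0
  have hal1 : 15 * L ^ 2 ≤ 16 * (L ^ 2 - D * W ^ 2) := by linarith
  have hal2 : 16 * (L ^ 2 - D * W ^ 2) ≤ 17 * L ^ 2 := by linarith
  -- the middle coefficient
  have hk : L * (L * B - D * W * d) = B * (L ^ 2 - D * W ^ 2) - D * W := by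
    linear_combination (-(D * W)) * he
  have hk1 : L ^ 2 - D * W ^ 2 ≤ B * (L ^ 2 - D * W ^ 2) := by
    have h1 : 0 ≤ L ^ 2 - D * W ^ 2 := by linarith
    exact le_mul_of_one_le_left h1 hB
  have hk2 : 16 * (B * (L ^ 2 - D * W ^ 2)) ≤ 17 * (L ^ 2 * B) := by
    have h1 := mul_le_mul_of_nonneg_left hal2 hB0.le
    linarith [show B * (16 * (L ^ 2 - D * W ^ 2)) = 16 * (B * (L ^ 2 - D * W ^ 2)) by ring,
      show B * (17 * L ^ 2) = 17 * (L ^ 2 * B) by ring]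
  have hk3 : L ^ 2 ≤ L ^ 2 * B := le_mul_of_one_le_right hLL.le hB
  have hkp : 0 < L * (L * B - D * W * d) := by rw [hk]; linarith
  have hku : L * (8 * (L * B - D * W * d)) ≤ L * (9 * (L * B)) := by
    have e1 : L * (8 * (L * B - D * W * d)) = 8 * (L * (L * B - D * W * d)) := by ring
    have e2 : L * (9 * (L * B)) = 9 * (L ^ 2 * B) := by ring
    rw [e1, e2, hk]
    linarith
  have hku2 : 8 * (L * B - D * W * d) ≤ 9 * (L * B) := le_of_mul_le_mul_left hku hL0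
  have hLB : L * B ≤ Q * L ^ 2 := by
    have h1 := mul_le_mul_of_nonneg_left hBQ hL0.le
    linarith [show L * (Q * L) = Q * L ^ 2 by ring]
  have hQL : 0 ≤ Q * L ^ 2 := by positivity
  -- the last coefficient
  have hg : L ^ 2 * (B ^ 2 - D * d ^ 2) = L ^ 2 * B ^ 2 - D * (1 + W * B) ^ 2 := by
    linear_combination (-D * (L * d + (1 + W * B))) * he
  have hWB : 1 ≤ W * B := by
    have h1 : 0 < W * B := mul_pos (by linarith) hB0
    exact Int.add_one_le_iff.2 h1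
  have hg1 : (1 + W * B) ^ 2 ≤ 4 * (W * B) ^ 2 := by
    have h1 : (1 + W * B) ^ 2 ≤ (2 * (W * B)) ^ 2 :=
      pow_le_pow_left₀ (by linarith) (by linarith) 2
    linarith [show (2 * (W * B)) ^ 2 = 4 * (W * B) ^ 2 by ring]
  have hg2 : D * (1 + W * B) ^ 2 ≤ n * (1 + W * B) ^ 2 :=
    mul_le_mul_of_nonneg_right hD1 (sq_nonneg _)
  have hg3 : -n * (1 + W * B) ^ 2 ≤ D * (1 + W * B) ^ 2 :=
    mul_le_mul_of_nonneg_right hD2 (sq_nonneg _)
  have hg4 : n * (1 + W * B) ^ 2 ≤ n * (4 * (W * B) ^ 2) := mul_le_mul_of_nonneg_left hg1 hn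
  have hg5 : 4 * (n * (4 * (W * B) ^ 2)) ≤ L ^ 2 * B ^ 2 := by
    have h1 := mul_le_mul_of_nonneg_right h16 hBB.le
    have e1 : 4 * (n * (4 * (W * B) ^ 2)) = 16 * (n * W ^ 2) * B ^ 2 := by ring
    rw [e1]
    exact h1
  have hLB2 : 0 < L ^ 2 * B ^ 2 := by positivity
  have hgp : 0 < L ^ 2 * (B ^ 2 - D * d ^ 2) := by rw [hg]; linarith
  have hgu : L ^ 2 * (4 * (B ^ 2 - D * d ^ 2)) ≤ L ^ 2 * (5 * B ^ 2) := by
    have e1 : L ^ 2 * (4 * (B ^ 2 - D * d ^ 2)) = 4 * (L ^ 2 * (B ^ 2 - D * d ^ 2)) := by ring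
    have e2 : L ^ 2 * (5 * B ^ 2) = 5 * (L ^ 2 * B ^ 2) := by ring
    rw [e1, e2, hg]
    linarith
  have hgu2 : 4 * (B ^ 2 - D * d ^ 2) ≤ 5 * B ^ 2 := le_of_mul_le_mul_left hgu hLL
  have hBB2 : B ^ 2 ≤ (Q * L) ^ 2 := pow_le_pow_left₀ hB0.le hBQ 2
  have hQL2 : 0 ≤ (Q * L) ^ 2 := sq_nonneg _
  have hL2 : 2 * L ≤ L ^ 2 := by
    have h1 := mul_le_mul_of_nonneg_right hL hL0.le
    linarith [show L ^ 2 = L * L by ring]
  refine ⟨⟨?_, ?_⟩, ⟨?_, ?_⟩, ?_, ?_⟩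
  · linarith
  · linarith
  · exact (mul_pos_iff_of_pos_left hL0).1 hkp
  · linarith
  · exact (mul_pos_iff_of_pos_left hLL).1 hgp
  · linarith [show (Q * L) ^ 2 = Q ^ 2 * L ^ 2 by ring]

theorem t_formD : S_formD := by
  intro D Q2 ℓ _ c x hD0 hQ hQℓ hDℓ hmod hc b v hb hv hsm
  have hℓ : ℓ.Prime := Fact.out
  -- the coordinates
  have hb0 : 0 < b := by
    rw [hb]
    exact Nat.pos_of_ne_zero ((ZMod.val_ne_zero _).mpr x.ne_zero)
  have hbℓ : b < ℓ := by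
    rw [hb]
    exact ZMod.val_lt _
  have hv0 : 0 < v := by
    rw [hv]
    exact Nat.pos_of_ne_zero ((ZMod.val_ne_zero _).mpr (c * x⁻¹).ne_zero)
  have hvℓ : v < ℓ := by
    rw [hv]
    exact ZMod.val_lt _
  have hbx : (b : ZMod ℓ) = (x : ZMod ℓ) := by
    rw [hb]
    exact ZMod.natCast_zmod_val _
  have hvx : (v : ZMod ℓ) = ((c * x⁻¹ : (ZMod ℓ)ˣ) : ZMod ℓ) := by
    rw [hv]
    exact ZMod.natCast_zmod_val _
  have hdvd : ℓ ∣ 1 + (Q2 * v) * (Q2 * b) := by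
    rw [← ZMod.natCast_eq_zero_iff]
    push_cast
    rw [hbx, hvx, Units.val_mul]
    have h1 : ((x⁻¹ : (ZMod ℓ)ˣ) : ZMod ℓ) * (x : ZMod ℓ) = 1 := Units.inv_mul x
    linear_combination (c : ZMod ℓ) * (Q2 : ZMod ℓ) ^ 2 * h1 + hc
  have he : ℓ * dK Q2 ℓ b v = 1 + (Q2 * v) * (Q2 * b) := Nat.mul_div_cancel' hdvd
  have heZ : (ℓ : ℤ) * (dK Q2 ℓ b v : ℤ) = 1 + (Q2 * v) * (Q2 * b) := by exact_mod_cast he
  have hsz := sizes (L := (ℓ : ℤ)) (W := (Q2 : ℤ) * v) (B := (Q2 : ℤ) * b)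
    (d := (dK Q2 ℓ b v : ℤ)) (D := D) (n := (D.natAbs : ℤ)) (Q := (Q2 : ℤ))
    (by exact_mod_cast hℓ.two_le) (by exact_mod_cast Nat.mul_pos hQ hv0)
    (by exact_mod_cast Nat.mul_pos hQ hb0) (by positivity) (by positivity)
    (by exact_mod_cast hQ) (by exact_mod_cast Nat.mul_le_mul_left Q2 hbℓ.le)
    Int.le_natAbs (by omega) (by exact_mod_cast hsm) heZ
  obtain ⟨⟨hal1, hal2⟩, ⟨hk1, hk2⟩, hg1, hg2⟩ := hsz
  have hal : (alD D Q2 ℓ v : ℤ) = (ℓ : ℤ) ^ 2 - D * ((Q2 : ℤ) * v) ^ 2 := by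
    have h0 : (0 : ℤ) ≤ (ℓ : ℤ) := by positivity
    unfold alD
    rw [Int.toNat_of_nonneg]
    · push_cast
      ring
    · push_cast
      linarith
  have hk : (kD D Q2 ℓ b v : ℤ) = (ℓ : ℤ) * ((Q2 : ℤ) * b) - D * ((Q2 : ℤ) * v) *
      (dK Q2 ℓ b v : ℤ) := by
    unfold kD
    rw [Int.toNat_of_nonneg]
    · push_cast
      ring
    · push_cast
      linarith
  have hga : (gaD D Q2 ℓ b v : ℤ) = ((Q2 : ℤ) * b) ^ 2 - D * (dK Q2 ℓ b v : ℤ) ^ 2 := by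
    unfold gaD
    rw [Int.toNat_of_nonneg]
    · push_cast
      ring
    · push_cast
      linarith
  rw [← hal] at hal1 hal2
  rw [← hk] at hk1 hk2
  rw [← hga] at hg1 hg2
  generalize dK Q2 ℓ b v = d at he heZ hk hga ⊢
  generalize alD D Q2 ℓ v = al at hal hal1 hal2 ⊢
  generalize kD D Q2 ℓ b v = k at hk hk1 hk2 ⊢
  generalize gaD D Q2 ℓ b v = ga at hga hg1 hg2 ⊢
  have hal1' : ℓ ≤ al := by exact_mod_cast hal1
  have hal2' : al ≤ 2 * ℓ ^ 2 := by exact_mod_cast hal2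
  have hk2' : k ≤ 2 * Q2 * ℓ ^ 2 := by exact_mod_cast hk2
  have hg1' : 0 < ga := by exact_mod_cast hg1
  have hg2' : ga ≤ 2 * Q2 ^ 2 * ℓ ^ 2 := by exact_mod_cast hg2
  have hfin : ∀ i, i ≤ 4 → 2 * Q2 ^ i * ℓ ^ 2 ≤ 16 * (D.natAbs + 1) * Q2 ^ 4 * ℓ ^ 2 := by
    intro i hi
    have h1 : Q2 ^ i ≤ Q2 ^ 4 := Nat.pow_le_pow_right hQ hi
    have h2 : 2 * Q2 ^ i ≤ 16 * (D.natAbs + 1) * Q2 ^ 4 := Nat.mul_le_mul (by omega) h1
    exact Nat.mul_le_mul_right _ h2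
  obtain ⟨t, ht⟩ := (Nat.modEq_iff_dvd).mp hmod.symm
  push_cast at ht
  refine ⟨⟨hb0, hbℓ, hv0, hvℓ, he⟩, ⟨?_, ?_, ?_⟩, ?_, ⟨hal1', hg1', ?_, ?_, ?_⟩, ?_⟩
  · refine ((Nat.modEq_iff_dvd).mpr ?_).symm
    rw [hal]
    push_cast
    refine ⟨t * ((ℓ : ℤ) + 1) - D * (Q2 * (v : ℤ) ^ 2), ?_⟩
    linear_combination ((ℓ : ℤ) + 1) * ht
  · refine (Nat.modEq_zero_iff_dvd).mpr ?_
    have h1 : (Q2 : ℤ) ∣ (k : ℤ) := by
      rw [hk]
      exact ⟨(ℓ : ℤ) * b - D * v * d, by ring⟩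
    exact_mod_cast h1
  · rw [hga]
    have hd : (d : ℤ) - 1 = Q2 * (v * (Q2 * b) - t * d) := by
      linear_combination heZ - (d : ℤ) * ht
    refine ⟨Q2 * b ^ 2 - D * (d + 1) * (v * (Q2 * b) - t * d), ?_⟩
    linear_combination (-D) * (d + 1) * hd
  · rw [hal, hk, hga]
    linear_combination D * (ℓ * d - (Q2 * v) * (Q2 * b) + 1) * heZ
  · have h1 := hfin 0 (by norm_num)
    rw [pow_zero, mul_one] at h1
    exact hal2'.trans h1
  · have h1 := hfin 1 (by norm_num)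
    rw [pow_one] at h1
    exact hk2'.trans h1
  · exact hg2'.trans (hfin 2 (by norm_num))
  · intro X p hp hpℓ
    have : NeZero p := ⟨hp.ne_zero⟩
    have : Fact p.Prime := ⟨hp⟩
    have hℓp : (ℓ : ZMod p) ≠ 0 := by
      rw [Ne, ZMod.natCast_eq_zero_iff]
      intro h
      rcases (Nat.dvd_prime hℓ).mp h with h1 | h1
      · exact hp.one_lt.ne' h1
      · exact hpℓ.ne h1
    have hep : (ℓ : ZMod p) * d = 1 + (Q2 * v) * (Q2 * b) := by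
      exact_mod_cast congrArg (Nat.cast (R := ZMod p)) he
    have halp : (al : ZMod p) = (ℓ : ZMod p) ^ 2 - (D : ZMod p) * ((Q2 : ZMod p) * v) ^ 2 := by
      have h1 := congrArg (Int.cast : ℤ → ZMod p) hal
      push_cast at h1
      exact h1
    have hkp : (k : ZMod p) = (ℓ : ZMod p) * ((Q2 : ZMod p) * b) -
        (D : ZMod p) * ((Q2 : ZMod p) * v) * d := by
      have h1 := congrArg (Int.cast : ℤ → ZMod p) hk
      push_cast at h1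
      exact h1
    have hgap : (ga : ZMod p) = ((Q2 : ZMod p) * b) ^ 2 - (D : ZMod p) * (d : ZMod p) ^ 2 := by
      have h1 := congrArg (Int.cast : ℤ → ZMod p) hga
      push_cast at h1
      exact h1
    have hid : (ℓ : ZMod p) ^ 2 * ((al * X ^ 2 + 2 * k * X + ga : ℕ) : ZMod p) =
        ((ℓ : ZMod p) * ((ℓ : ZMod p) * X + Q2 * b)) ^ 2 -
      (D : ZMod p) * ((Q2 : ZMod p) * v * ((ℓ : ZMod p) * X + Q2 * b) + 1) ^ 2 := by
      push_cast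
      rw [halp, hkp, hgap]
      linear_combination (-(D : ZMod p)) * (ℓ * (Q2 * v) * X + ℓ * d +
        (Q2 : ZMod p) * v * ((ℓ : ZMod p) * X + Q2 * b) + 1) * hep
    rw [OmD, mem_filter, ← ZMod.natCast_eq_zero_iff]
    simp only [mem_univ, true_and]
    rw [← hid, mul_eq_zero]
    constructor
    · exact fun h => Or.inr h
    · rintro (h | h)
      · exact absurd h (pow_ne_zero 2 hℓp)
      · exact h

end Pool.Agent.Y929.T2
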